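import Pool.Agent.Lib.MP_5d8e72_nt.Fin

/-!
# MP_5d8e72_nt: the case `m = 1`, and the order of magnitude of `M_m(p)` for every `m`
-/

set_option autoImplicit false

namespace Pool.Agent.Results.MP_5d8e72_nt.FirstMoment

open Pool.Agent.Lib.MP_5d8e72_nt

/-- With `C` the constant of the problem file (`IsC C`), for every prime `p > 3` and every
`m ≥ 1`, and with `E = (1 + log p) ^ 2 / √p`,
`2 ^ (m - 1) (C - 60 m E) ≤ M_m(p) ≤ 4 ^ (m - 1) (C + 36 E)`.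
For `m = 1` this is `C - 60 E ≤ M_1(p) ≤ C + 36 E`, so that `M_1(p)` tends to `C`. -/
theorem result :
    ∃ C : ℝ, IsC C ∧ ∀ (p : ℕ) [Fact p.Prime], 3 < p → ∀ m : ℕ, 1 ≤ m →
      2 ^ (m - 1) * (C - 60 * m * ((1 + Real.log p) ^ 2 / √p)) ≤ M m p ∧
        M m p ≤ 4 ^ (m - 1) * (C + 36 * ((1 + Real.log p) ^ 2 / √p)) :=
  main

end Pool.Agent.Results.MP_5d8e72_nt.FirstMoment
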